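import Pool.Agent.H25.NG

set_option autoImplicit false

namespace Pool.Agent.Results.MP_4101c8_co.Product

open Pool.Agent.H25.NG

/-- Connected graphs of order n = 14 k with delta star 4 whose product exceeds 4 n / 5. -/
theorem result (k : ℕ) (hk : 1 ≤ k) :
    ∃ (V : Type) (_ : Fintype V) (_ : DecidableEq V) (G : SimpleGraph V) (_ : DecidableRel G.Adj),
      Fintype.card V = 14 * k ∧ G.Connected ∧ min G.minDegree Gᶜ.minDegree = 4 ∧
      4 * (Fintype.card V : ℝ) / 5 < (gammaT G : ℝ) * (gammaT Gᶜ : ℝ) := by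
  obtain ⟨V, i1, i2, G, i3, h1, h2, h3, h4, h5⟩ := main k hk
  refine ⟨V, i1, i2, G, i3, h1, h2, h3, ?_⟩
  have a : (2 : ℝ) ≤ gammaT G := by exact_mod_cast h4
  have b : (6 : ℝ) * k ≤ gammaT Gᶜ := by exact_mod_cast h5
  have c : (1 : ℝ) ≤ k := by exact_mod_cast hk
  rw [h1]; push_cast; nlinarith

end Pool.Agent.Results.MP_4101c8_co.Product
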